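import Mathlib
import Pool.Prelude.Def_H_3587d628

set_option autoImplicit false

namespace Pool.Agent.Lib.MP_45faa6_lc

/-- Acceptance probability on input `x` and proof `π` of the verifier which tosses `R x` coins,
reads the proof at the positions `Q (x, coins)` and answers `D (x, coins, bits read)`. -/
noncomputable def accProb {X : Type} (R : X → ℕ) (Q : X × List Bool → List ℕ)
    (D : X × List Bool × List Bool → Bool) (x : X) (π : ℕ → Bool) : ℝ :=
  ((Finset.univ.filter fun ρ : Fin (R x) → Bool =>
    D (x, List.ofFn ρ, (Q (x, List.ofFn ρ)).map π) = true).card : ℝ) / 2 ^ R x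

/-- The promise problem with yes-instances `Y` and no-instances `N` has a polynomial-time verifier
with completeness `α`, soundness `β`, at most `r x` coins and at most `q x` queries. -/
def InPCP {X : Type} [N487b59b3 X] (α β : ℝ) (r q : X → ℝ) (Y N : Set X) : Prop :=
  ∃ (R : X → ℕ) (Q : X × List Bool → List ℕ) (D : X × List Bool × List Bool → Bool),
    N68a2faeb.IsPolyTime (fun x => List.replicate (R x) true) ∧
    N68a2faeb.IsPolyTime Q ∧ N68a2faeb.IsPolyTime D ∧
    ∀ x, (R x : ℝ) ≤ r x ∧
      (∀ ρ : List Bool, ρ.length = R x → ((Q (x, ρ)).length : ℝ) ≤ q x) ∧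
      (x ∈ Y → ∃ π, α ≤ accProb R Q D x π) ∧ (x ∈ N → ∀ π, accProb R Q D x π ≤ β)

end Pool.Agent.Lib.MP_45faa6_lc
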