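import Mathlib

/-!
Bounded flows on expanders certify a threshold: a linear-size certificate for majority which is
checked by local tests.
-/

set_option autoImplicit false

namespace Pool.Agent.Lib.MP_45faa6_lc

open Finset

/-- Hall's theorem with demands and capacities. -/
theorem hall_tokens {V E : Type} [Fintype V] [Fintype E] [DecidableEq V] [DecidableEq E]
    (inc : V → Finset E) (need : V → ℕ) (T : ℕ)
    (H : ∀ S : Finset V, ∑ v ∈ S, need v ≤ T * (S.biUnion inc).card) :
    ∃ w : V → E → ℕ, (∀ v, need v ≤ ∑ e ∈ inc v, w v e) ∧ ∀ e, ∑ v, w v e ≤ T := by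
  classical
  let t : (Σ v, Fin (need v)) → Finset (E × Fin T) := fun s => inc s.1 ×ˢ univ
  have hall : ∀ A : Finset (Σ v, Fin (need v)), A.card ≤ (A.biUnion t).card := by
    intro A
    have h1 : A ⊆ (A.image Sigma.fst).sigma (fun _ => univ) := by
      intro s hs
      simp only [mem_sigma, mem_image, mem_univ, and_true]
      exact ⟨s, hs, rfl⟩
    have h2 : A.biUnion t = ((A.image Sigma.fst).biUnion inc) ×ˢ univ := by
      ext x
      simp only [t, mem_biUnion, mem_product, mem_univ, and_true, mem_image]
      constructor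
      · rintro ⟨s, hs, h⟩; exact ⟨_, ⟨s, hs, rfl⟩, h⟩
      · rintro ⟨_, ⟨s, hs, rfl⟩, h⟩; exact ⟨s, hs, h⟩
    refine (card_le_card h1).trans ?_
    rw [card_sigma, h2, card_product]
    simpa [mul_comm] using H (A.image Sigma.fst)
  obtain ⟨φ, hφ, hmem⟩ := (all_card_le_biUnion_card_iff_exists_injective t).1 hall
  refine ⟨fun v e => (univ.filter fun i : Fin (need v) => (φ ⟨v, i⟩).1 = e).card, fun v => ?_,
    fun e => ?_⟩
  · rw [← card_eq_sum_card_fiberwise (s := univ) (f := fun i : Fin (need v) => (φ ⟨v, i⟩).1)]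
    · simp
    · intro i _
      have := hmem ⟨v, i⟩
      simp only [t, mem_product] at this
      exact this.1
  · rw [← card_sigma]
    refine (card_le_card_of_injOn (t := (univ : Finset (Fin T))) (fun s => (φ s).2)
      (fun _ _ => mem_univ _) ?_).trans (by simp)
    intro s hs s' hs' h
    simp only [coe_sigma, Set.mem_sigma_iff, coe_filter, mem_univ, true_and, Set.mem_ofPred_eq,
      coe_univ, Set.mem_univ] at hs hs'
    exact hφ (Prod.ext (hs.trans hs'.symm) h)

variable {V : Type} [Fintype V] [DecidableEq V]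

/-- Poincare inequality for a family of five permutations. -/
def Poinc (τ : Fin 5 → V ≃ V) : Prop :=
  ∀ f : V → ℝ, (Fintype.card V : ℝ) * ∑ z, f z ^ 2 - (∑ z, f z) ^ 2 ≤
    4 * (Fintype.card V : ℝ) * ∑ g, ∑ z, (f (τ g z) - f z) ^ 2

theorem expansion {τ : Fin 5 → V ≃ V} (h : Poinc τ) (S : Finset V) :
    (S.card : ℝ) * (Fintype.card V - S.card) ≤
      8 * (Fintype.card V : ℝ) * ∑ g, ((S.filter fun v => τ g v ∉ S).card : ℝ) := by
  have := h (fun v => if v ∈ S then 1 else 0)
  have h1 : ∑ z, (if z ∈ S then (1 : ℝ) else 0) = S.card := by simp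
  have h2 : ∑ z, (if z ∈ S then (1 : ℝ) else 0) ^ 2 = S.card := by
    rw [← h1]; exact sum_congr rfl fun z _ => by split_ifs <;> simp
  have h3 : ∀ g, ∑ z, ((if τ g z ∈ S then (1 : ℝ) else 0) - if z ∈ S then 1 else 0) ^ 2 =
      2 * ((S.filter fun v => τ g v ∉ S).card : ℝ) := by
    intro g
    have e1 : ∑ z, (if τ g z ∈ S then (1 : ℝ) else 0) = S.card := by
      rw [← h1]; exact Equiv.sum_comp (τ g) (fun z => if z ∈ S then (1 : ℝ) else 0)
    have e2 : ((S.filter fun v => τ g v ∉ S).card : ℝ) =
        ∑ z, if z ∈ S ∧ τ g z ∉ S then (1 : ℝ) else 0 := by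
      rw [sum_boole]; congr 2; ext; simp
    have e3 : ∀ z, ((if τ g z ∈ S then (1 : ℝ) else 0) - if z ∈ S then 1 else 0) ^ 2 =
        2 * (if z ∈ S ∧ τ g z ∉ S then (1 : ℝ) else 0) + (if τ g z ∈ S then (1 : ℝ) else 0) -
          if z ∈ S then 1 else 0 := by
      intro z
      by_cases a : z ∈ S <;> by_cases b : τ g z ∈ S <;> simp [a, b]
      norm_num
    simp_rw [e3]
    rw [sum_sub_distrib, sum_add_distrib, e1, h1, ← mul_sum, ← e2]; ring
  simp_rw [h3] at this
  rw [h1, h2, ← mul_sum] at this
  nlinarith

/-- Completeness: a majority has a bounded certificate. -/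
theorem exists_flow {τ : Fin 5 → V ≃ V} (h : Poinc τ) (b : V → Bool) (a t : ℕ) (hat : a ≤ t)
    (hb : a * Fintype.card V ≤ t * (univ.filter fun v => b v = true).card) :
    ∃ val : V → Fin 5 → ℕ, (∀ v g, val v g ≤ 16 * t) ∧
      ∀ v, ∑ g, val v g + a ≤ cond (b v) t 0 + ∑ g, val (τ g v) g := by
  let inc : V → Finset (V × Fin 5) := fun v =>
    univ.image (fun g => (v, g)) ∪ univ.image (fun g => (τ g v, g))
  let need : V → ℕ := fun v => 80 * t + a - cond (b v) t 0
  have hneed : ∀ v, need v + cond (b v) t 0 = 80 * t + a := by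
    intro v; simp only [need]; cases b v <;> simp; omega
  obtain ⟨w, hw1, hw2⟩ := hall_tokens inc need (16 * t) (by
    intro S
    have c1 : (S.biUnion inc).card = ∑ g, (S.card + (S.filter fun v => τ g v ∉ S).card) := by
      rw [card_eq_sum_card_fiberwise (f := Prod.snd) (t := univ) (fun _ _ => mem_univ _)]
      refine sum_congr rfl fun g _ => ?_
      have : (S.biUnion inc).filter (fun x => x.2 = g) =
          (S ∪ (S.filter fun v => τ g v ∉ S).image (τ g)).image (fun v => (v, g)) := by
        ext ⟨m, g'⟩
        simp only [inc, mem_filter, mem_biUnion, mem_union, mem_image, mem_univ, true_and,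
          Prod.mk.injEq]
        constructor
        · rintro ⟨⟨v, hv, ⟨g1, rfl, rfl⟩ | ⟨g1, rfl, rfl⟩⟩, rfl⟩
          · exact ⟨v, Or.inl hv, rfl, rfl⟩
          · by_cases hc : τ g1 v ∈ S
            · exact ⟨_, Or.inl hc, rfl, rfl⟩
            · exact ⟨_, Or.inr ⟨v, ⟨hv, hc⟩, rfl⟩, rfl, rfl⟩
        · rintro ⟨v, hv | ⟨u, ⟨hu, _⟩, rfl⟩, rfl, rfl⟩
          · exact ⟨⟨v, hv, Or.inl ⟨g, rfl, rfl⟩⟩, rfl⟩
          · exact ⟨⟨u, hu, Or.inr ⟨g, rfl, rfl⟩⟩, rfl⟩
      rw [this, card_image_of_injective _ (fun _ _ h => (Prod.ext_iff.1 h).1), card_union_of_disjoint,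
        card_image_of_injective _ (τ g).injective]
      rw [disjoint_right]
      intro x hx
      obtain ⟨v, hv, rfl⟩ := mem_image.1 hx
      exact (mem_filter.1 hv).2
    have c2 : ∑ v ∈ S, need v + t * (S.filter fun v => b v = true).card =
        (80 * t + a) * S.card := by
      have : t * (S.filter fun v => b v = true).card = ∑ v ∈ S, cond (b v) t 0 := by
        rw [card_filter, mul_sum]
        exact sum_congr rfl fun v _ => by cases b v <;> simp
      rw [this, ← sum_add_distrib, sum_congr rfl fun v _ => hneed v]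
      simp [mul_comm]
    have c3 : (univ.filter fun v => b v = true).card + S.card ≤
        (S.filter fun v => b v = true).card + Fintype.card V := by
      have e1 := card_union_add_card_inter (univ.filter fun v => b v = true) S
      have e2 : (univ.filter fun v => b v = true) ∩ S = S.filter fun v => b v = true := by
        ext; simp [and_comm]
      have e3 := card_le_univ ((univ.filter fun v => b v = true) ∪ S)
      rw [e2] at e1
      omega
    have c4 := expansion h S
    have c5 := card_le_univ S
    rw [c1, sum_add_distrib]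
    simp only [sum_const, card_univ, Fintype.card_fin, smul_eq_mul]
    rw [← Nat.cast_sum] at c4
    set s := S.card
    set M := Fintype.card V
    set D := ∑ g, (S.filter fun v => τ g v ∉ S).card
    set β := (S.filter fun v => b v = true).card
    set γ := (univ.filter fun v => b v = true).card
    set n := ∑ v ∈ S, need v
    suffices hs : a * s ≤ t * β + 16 * t * D by nlinarith
    rcases Nat.eq_zero_or_pos s with h0 | h0
    · rw [h0]; omega
    have hM : (0 : ℝ) < M := by exact_mod_cast h0.trans_le c5
    have c5' : (s : ℝ) ≤ M := by exact_mod_cast c5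
    rcases le_total (2 * s) M with h2 | h2
    · have h2' : 2 * (s : ℝ) ≤ M := by exact_mod_cast h2
      have : (s : ℝ) ≤ 16 * D := by
        have h0' : (0 : ℝ) ≤ s := by positivity
        by_contra hc
        push Not at hc
        nlinarith
      have : s ≤ 16 * D := by exact_mod_cast this
      nlinarith
    · have h2' : (M : ℝ) ≤ 2 * s := by exact_mod_cast h2
      have : (M : ℝ) - s ≤ 16 * D := by
        by_contra hc
        push Not at hc
        nlinarith
      have : M ≤ s + 16 * D := by
        have : (M : ℝ) ≤ s + 16 * D := by linarith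
        exact_mod_cast this
      have e1 : a * s ≤ a * M := Nat.mul_le_mul_left _ c5
      have e2 : t * γ ≤ t * (β + 16 * D) := Nat.mul_le_mul_left _ (by omega)
      nlinarith)
  refine ⟨fun m g => if (τ g).symm m = m then 0 else w ((τ g).symm m) (m, g), fun v g => ?_,
    fun v => ?_⟩
  · beta_reduce
    split_ifs
    · omega
    · exact (single_le_sum (f := fun u => w u (v, g)) (fun _ _ => Nat.zero_le _)
        (mem_univ _)).trans (hw2 _)
  · have e1 : ∀ g, w v (v, g) + (if (τ g).symm v = v then 0 else w ((τ g).symm v) (v, g)) ≤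
        16 * t := by
      intro g
      refine le_trans ?_ (hw2 (v, g))
      split_ifs with hc
      · exact single_le_sum (f := fun u => w u (v, g)) (fun _ _ => Nat.zero_le _) (mem_univ _)
      · rw [← sum_pair (f := fun u => w u (v, g)) (Ne.symm hc)]
        exact sum_le_sum_of_subset (subset_univ _)
    have e2 : ∑ e ∈ inc v, w v e ≤ ∑ g, w v (v, g) +
        ∑ g, (if (τ g).symm (τ g v) = τ g v then 0 else w ((τ g).symm (τ g v)) (τ g v, g)) := by
      have : inc v = univ.image (fun g => (v, g)) ∪
          (univ.filter fun g => ¬ v = τ g v).image (fun g => (τ g v, g)) := by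
        ext ⟨m, g'⟩
        simp only [inc, mem_union, mem_image, mem_univ, true_and, Prod.mk.injEq, mem_filter]
        constructor
        · rintro (h | ⟨g, rfl, rfl⟩)
          · exact Or.inl h
          · by_cases hc : v = τ g v
            · exact Or.inl ⟨g, hc, rfl⟩
            · exact Or.inr ⟨g, hc, rfl, rfl⟩
        · rintro (h | ⟨g, _, rfl, rfl⟩)
          · exact Or.inl h
          · exact Or.inr ⟨g, rfl, rfl⟩
      have hu : ∀ A B : Finset (V × Fin 5), ∑ e ∈ A ∪ B, w v e ≤ ∑ e ∈ A, w v e + ∑ e ∈ B, w v e :=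
        fun A B => by rw [← sum_union_inter]; exact Nat.le_add_right _ _
      rw [this]
      refine (hu _ _).trans ?_
      rw [sum_image (fun _ _ _ _ h => (Prod.ext_iff.1 h).2),
        sum_image (fun _ _ _ _ h => (Prod.ext_iff.1 h).2), sum_filter]
      simp only [Equiv.symm_apply_apply, ite_not, le_refl]
    have e3 := sum_le_sum (s := univ) fun g _ => e1 g
    rw [sum_add_distrib] at e3
    simp only [sum_const, card_univ, Fintype.card_fin, smul_eq_mul] at e3
    have := hw1 v
    have := hneed v
    beta_reduce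
    omega

omit [DecidableEq V] in
/-- Soundness: if few local tests fail then the threshold nearly holds. -/
theorem flow_sound (τ : Fin 5 → V ≃ V) (b : V → Bool) (a t U : ℕ) (val : V → Fin 5 → ℕ)
    (hU : ∀ v g, val v g ≤ U) :
    a * Fintype.card V ≤ t * (univ.filter fun v => b v = true).card + (5 * U + a) *
      (univ.filter fun v => ¬ ∑ g, val v g + a ≤ cond (b v) t 0 + ∑ g, val (τ g v) g).card := by
  have e1 : ∑ v, ∑ g, val (τ g v) g = ∑ v, ∑ g, val v g := by
    rw [sum_comm, sum_comm (s := univ) (t := univ) (f := fun v g => val v g)]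
    exact sum_congr rfl fun g _ => Equiv.sum_comp (τ g) (fun v => val v g)
  have e2 : ∀ v, ∑ g, val v g + a ≤ cond (b v) t 0 + ∑ g, val (τ g v) g + (5 * U + a) *
      if ¬ ∑ g, val v g + a ≤ cond (b v) t 0 + ∑ g, val (τ g v) g then 1 else 0 := by
    intro v
    split_ifs with h
    · omega
    · have := sum_le_sum (s := univ) fun g _ => hU v g
      simp only [sum_const, card_univ, Fintype.card_fin, smul_eq_mul] at this
      omega
  have e3 := sum_le_sum (s := univ) fun v _ => e2 v
  have e4 : t * (univ.filter fun v => b v = true).card = ∑ v, cond (b v) t 0 := by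
    rw [card_filter, mul_sum]
    exact sum_congr rfl fun v _ => by cases b v <;> simp
  rw [sum_add_distrib, sum_add_distrib, sum_add_distrib, e1, ← mul_sum, ← card_filter, ← e4] at e3
  simp only [sum_const, card_univ, smul_eq_mul] at e3
  rw [mul_comm a]
  omega

end Pool.Agent.Lib.MP_45faa6_lc
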