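import Pool.Agent.Lib.MP_45faa6_lc.Margulis
import Pool.Agent.Lib.MP_45faa6_lc.Hall
import Pool.Agent.Lib.MP_acf5a6_lc.Arith

/-!
An explicit expander on the bit strings of any given length.
-/

set_option autoImplicit false

namespace Pool.Agent.Lib.MP_45faa6_lc

open Finset Pool.Agent.Lib.MP_acf5a6_lc

/-- Generators on one or two layers of the Margulis graph. -/
def gen (k F : ℕ) [NeZero k] :
    Fin 5 → ((ZMod k × ZMod k) × ZMod F ≃ (ZMod k × ZMod k) × ZMod F) :=
  ![(marg 0).prodCongr (Equiv.refl _), (marg 1).prodCongr (Equiv.refl _),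
    (marg 2).prodCongr (Equiv.refl _), (marg 3).prodCongr (Equiv.refl _),
    (Equiv.refl _).prodCongr (Equiv.addRight 1)]

theorem poinc_gen (k F : ℕ) [NeZero k] [NeZero F] (hF : F = 1 ∨ F = 2) : Poinc (gen k F) := by
  intro f
  have hP := fun e : ZMod F => poincare_marg (k := k) (fun z => f (z, e))
  simp only [Fin.sum_univ_four] at hP
  rw [Fin.sum_univ_five]
  simp only [Fintype.sum_prod_type_right (α₁ := ZMod k × ZMod k), Fintype.card_prod, ZMod.card]
  simp only [gen, Matrix.cons_val, Equiv.prodCongr_apply, Prod.map_apply,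
    Equiv.coe_addRight, Equiv.coe_refl, id]
  push_cast
  rcases hF with rfl | rfl
  · have h := hP 0
    have e : ∀ g : ZMod 1 → ℝ, ∑ e, g e = g 0 := fun g => Fintype.sum_unique g
    simp only [e]
    have h2 : 0 ≤ (k : ℝ) ^ 2 * ∑ x, (f (x, 0 + 1) - f (x, 0)) ^ 2 := by positivity
    push_cast
    nlinarith
  · have h0 := hP 0
    have h1 := hP 1
    have e : ∀ g : ZMod 2 → ℝ, ∑ e, g e = g 0 + g 1 := fun g => Fin.sum_univ_two g
    simp only [e]
    have e2 : (1 + 1 : ZMod 2) = 0 := rfl
    rw [zero_add, e2]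
    have h2 := sq_sum_le_card_mul_sum_sq (s := univ) (f := fun x => f (x, 1) - f (x, 0))
    have h3 : ∑ x, (f (x, 0) - f (x, 1)) ^ 2 = ∑ x, (f (x, 1) - f (x, 0)) ^ 2 :=
      sum_congr rfl fun x _ => by ring
    have h4 : 0 ≤ (k : ℝ) ^ 2 * ∑ x, (f (x, 1) - f (x, 0)) ^ 2 := by positivity
    rw [sum_sub_distrib] at h2
    simp only [card_univ, Fintype.card_prod, ZMod.card] at h2
    rw [h3]
    push_cast at h2 ⊢
    nlinarith

/-- Number of a vertex. -/
def enc {k F : ℕ} (v : (ZMod k × ZMod k) × ZMod F) : ℕ :=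
  v.1.1.val + k * (v.1.2.val + k * v.2.val)

/-- Vertex with a given number. -/
def dec (k F n : ℕ) : (ZMod k × ZMod k) × ZMod F :=
  (((n : ZMod k), ((n / k : ℕ) : ZMod k)), ((n / k / k : ℕ) : ZMod F))

theorem enc_dec {k F n : ℕ} (h : n < k * k * F) : enc (dec k F n) = n := by
  have h1 : n / k / k < F := by
    rw [Nat.div_div_eq_div_mul]
    exact Nat.div_lt_of_lt_mul h
  simp only [enc, dec, ZMod.val_natCast, Nat.mod_eq_of_lt h1, Nat.mod_add_div]

/-- Number of a neighbour. -/
def nb (k F n g : ℕ) : ℕ :=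
  if g = 0 then (n + 1) % k + k * (n / k % k + k * (n / k / k % F))
  else if g = 1 then n % k + k * ((n / k + 1) % k + k * (n / k / k % F))
  else if g = 2 then (n + 2 * (n / k)) % k + k * (n / k % k + k * (n / k / k % F))
  else if g = 3 then n % k + k * ((n / k + 2 * n) % k + k * (n / k / k % F))
  else n % k + k * (n / k % k + k * ((n / k / k + 1) % F))

theorem enc_gen (k F n : ℕ) [NeZero k] (g : Fin 5) : enc (gen k F g (dec k F n)) = nb k F n g := by
  have h1 : ∀ (m x : ℕ), ((x : ZMod m) + 1).val = (x + 1) % m := fun m x => by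
    rw [← ZMod.val_natCast]; push_cast; rfl
  have h2 : ∀ (m x y : ℕ), ((x : ZMod m) + 2 * (y : ZMod m)).val = (x + 2 * y) % m :=
    fun m x y => by rw [← ZMod.val_natCast]; push_cast; rfl
  fin_cases g <;>
    simp [enc, gen, dec, nb, marg, shA, shB, h1, h2, ZMod.val_natCast, -Nat.cast_div]

theorem valM_inj : ∀ l l' : List Bool, l.length = l'.length → valM l = valM l' → l = l'
  | [], [], _, _ => rfl
  | [], _ :: _, h, _ => by simp at h
  | _ :: _, [], h, _ => by simp at h
  | a :: l, b :: l', h, h' => by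
    have hl : l.length = l'.length := by simpa using h
    have h1 := valM_lt l
    have h2 := valM_lt l'
    simp only [valM, hl] at h' h1
    have : a = b ∧ valM l = valM l' := by
      cases a <;> cases b <;> simp at h' ⊢ <;> omega
    rw [this.1, valM_inj l l' hl this.2]

theorem pos_inj (R : ℕ) : Function.Injective fun ω : Fin R → Bool => valM (List.ofFn ω) :=
  fun _ _ h => List.ofFn_injective (valM_inj _ _ (by simp) h)

theorem exists_graph (R : ℕ) : ∃ τ : Fin 5 → (Fin R → Bool) ≃ (Fin R → Bool), Poinc τ ∧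
    ∀ g ω, valM (List.ofFn (τ g ω)) = nb (2 ^ (R / 2)) (2 ^ (R % 2)) (valM (List.ofFn ω)) g := by
  set k := 2 ^ (R / 2) with hk
  set F := 2 ^ (R % 2) with hF
  have hR : k * k * F = 2 ^ R := by
    rw [hk, hF, ← pow_add, ← pow_add]; congr 1; omega
  have hlt : ∀ ω : Fin R → Bool, valM (List.ofFn ω) < k * k * F := fun ω => by
    simpa [hR] using valM_lt (List.ofFn ω)
  have hb : Function.Bijective fun ω : Fin R → Bool => dec k F (valM (List.ofFn ω)) := by
    rw [Fintype.bijective_iff_injective_and_card]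
    refine ⟨fun ω ω' h => pos_inj R ?_, by simp [hR]⟩
    have := congrArg enc h
    simpa only [enc_dec (hlt _)] using this
  let e := Equiv.ofBijective _ hb
  have he : ∀ ω, enc (e ω) = valM (List.ofFn ω) := fun ω => enc_dec (hlt ω)
  have hP := poinc_gen k F (by
    rcases Nat.mod_two_eq_zero_or_one R with h | h <;> simp [hF, h])
  refine ⟨fun g => e.trans ((gen k F g).trans e.symm), fun f => ?_, fun g ω => ?_⟩
  · have := hP (fun v => f (e.symm v))
    rw [Fintype.card_congr e, ← Equiv.sum_comp e.symm, ← Equiv.sum_comp e.symm]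
    refine this.trans_eq ?_
    congr 1
    refine sum_congr rfl fun g _ => ?_
    rw [← Equiv.sum_comp e]
    simp
  · rw [← he]
    simp only [Equiv.trans_apply, Equiv.apply_symm_apply]
    exact enc_gen k F _ g

end Pool.Agent.Lib.MP_45faa6_lc
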