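import Pool.Agent.Lib.MP_45faa6_lc.Defs
import Pool.Agent.Lib.MP_45faa6_lc.Graph
import Pool.Agent.Lib.MP_73cdf8_lc.Sim
import Pool.Agent.Lib.Common.CookLevin.MorePT

/-!
From imperfect to perfect completeness with no extra coins and boundedly many extra queries.
-/

set_option autoImplicit false

namespace Pool.Agent.Lib.MP_45faa6_lc

open Finset Pool.Agent.Lib.MP_acf5a6_lc Pool.Agent.Lib.Common.CookLevin

section pt

variable {α β : Type} [N487b59b3 α] [N487b59b3 β]

theorem PT_finsum {ι : Type} (s : Finset ι) {f : ι → α → ℕ} (hf : ∀ i, PT (f i)) :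
    PT (fun a => ∑ i ∈ s, f i a) := by
  classical
  induction s using Finset.induction_on with
  | empty => simpa using PT.const 0
  | insert i s hi ih =>
    simp only [sum_insert hi]
    exact PT.natAdd (hf i) ih

theorem PT_constmap {ι : Type} (l : List ι) {f : ι → α → β} (hf : ∀ i, PT (f i)) :
    PT (fun a => l.map (fun i => f i a)) := by
  induction l with
  | nil => exact PT.const []
  | cons i l ih => exact PT.cons (hf i) ih

theorem PT_drop (c : ℕ) {l : α → List β} (hl : PT l) : PT (fun a => (l a).drop c) := by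
  induction c with
  | zero => exact hl
  | succ c ih => exact (PT.tail ih).of_eq (fun a => by simp)

theorem PT_valM {l : α → List Bool} (hl : PT l) : PT (fun a => valM (l a)) :=
  (PT.ofBitsM hl).of_eq (fun a => by rw [foldl_bit]; simp)

theorem PT_half {l : α → List β} (hl : PT l) : PT (fun a => 2 ^ ((l a).length / 2)) := by
  have h : ∀ n, ((List.range n).filter fun i => decide (i % 2 = 1)).length = n / 2 := by
    intro n
    induction n with
    | zero => rfl
    | succ n ih =>
      rw [List.range_succ, List.filter_append, List.length_append, ih]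
      rcases Nat.mod_two_eq_zero_or_one n with h | h <;> simp [h] <;> omega
  exact PT.of_eq (f := fun a => pow2 (ulen ((urange (ulen (l a))).filter
    fun i => decide (i % 2 = 1)))) (by fun_prop) (fun a => by simp [pow2, ulen, urange, h])

theorem PT_par {l : α → List β} (hl : PT l) : PT (fun a => 2 ^ ((l a).length % 2)) :=
  PT.of_eq (f := fun a => (l a).length % 2 + 1) (by fun_prop) (fun a => by
    rcases Nat.mod_two_eq_zero_or_one (l a).length with h | h <;> simp [h])

end pt

/-- Number of the `i`-th edge at the vertex `ρ`. -/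
def edge (ρ : List Bool) (i : ℕ) : ℕ :=
  if i < 5 then valM ρ * 5 + i
  else nb (2 ^ (ρ.length / 2)) (2 ^ (ρ.length % 2)) (valM ρ) (i - 5) * 5 + (i - 5)

theorem PT_edge {α : Type} [N487b59b3 α] {l : α → List Bool} (hl : PT l) (i : ℕ) :
    PT (fun a => edge (l a) i) := by
  have key : ∀ {k F n : α → ℕ}, PT k → PT F → PT n → PT (fun a => if i < 5 then n a * 5 + i
      else nb (k a) (F a) (n a) (i - 5) * 5 + (i - 5)) := by
    intro k F n hk hF hn
    unfold nb
    split_ifs <;> fun_prop
  exact key (PT_half hl) (PT_par hl) (PT_valM hl)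

/-- Queries of the new verifier. -/
def newQ {X : Type} (B : ℕ) (Q : X × List Bool → List ℕ) (y : X × List Bool) : List ℕ :=
  (List.range (10 * B)).map (fun p => 2 * (edge y.2 (p / B) * B + p % B) + 1) ++
    (Q y).map (fun i => 2 * i)

/-- The number written in the `i`-th block of the answers. -/
def blk (B : ℕ) (ans : List Bool) (i : ℕ) : ℕ :=
  ∑ j ∈ range B, cond (ans.getD (i * B + j) false) (2 ^ j) 0

/-- Decision of the new verifier. -/
def newD {X : Type} (B a t : ℕ) (D : X × List Bool × List Bool → Bool)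
    (y : X × List Bool × List Bool) : Bool :=
  decide (∑ g : Fin 5, blk B y.2.2 g + a ≤
    cond (D (y.1, y.2.1, y.2.2.drop (10 * B))) t 0 + ∑ g : Fin 5, blk B y.2.2 (5 + g))

theorem PT_newQ {X : Type} [N487b59b3 X] (B : ℕ) {Q : X × List Bool → List ℕ} (hQ : PT Q) :
    PT (newQ B Q) := by
  refine PT.append (PT_constmap _ fun p => ?_) (by fun_prop)
  have := PT_edge (l := fun y : X × List Bool => y.2) (by fun_prop) (p / B)
  fun_prop

theorem PT_newD {X : Type} [N487b59b3 X] (B a t : ℕ) {D : X × List Bool × List Bool → Bool}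
    (hD : PT D) : PT (newD B a t D) := by
  have h1 : ∀ i, PT (fun y : X × List Bool × List Bool => blk B y.2.2 i) := fun i =>
    PT_finsum _ fun j => by fun_prop
  have h2 := PT_drop (10 * B) (l := fun y : X × List Bool × List Bool => y.2.2) (by fun_prop)
  have h3 : PT (fun y : X × List Bool × List Bool => D (y.1, y.2.1, y.2.2.drop (10 * B))) :=
    PT.comp hD (PT.prodMk (by fun_prop) (PT.prodMk (by fun_prop) h2))
  exact PT.decide_le (PT.natAdd (PT_finsum _ fun g => h1 _) (PT.const _))
    (PT.natAdd (PT.cond' h3 (PT.const _) (PT.const _)) (PT_finsum _ fun g => h1 _))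

/-- The number written on the edge `e` of a proof. -/
def rd (B : ℕ) (π : ℕ → Bool) (e : ℕ) : ℕ :=
  ∑ j ∈ range B, cond (π (2 * (e * B + j) + 1)) (2 ^ j) 0

theorem rd_lt (B : ℕ) (π : ℕ → Bool) (e : ℕ) : rd B π e ≤ 2 ^ B := by
  refine le_trans (sum_le_sum (g := fun j => 2 ^ j) fun j _ => ?_) ?_
  · cases π (2 * (e * B + j) + 1) <;> simp
  · rw [Nat.geomSum_eq le_rfl]; simp

theorem sum_testBit (B n : ℕ) : ∑ j ∈ range B, cond (n.testBit j) (2 ^ j) 0 = n % 2 ^ B := by
  induction B with
  | zero => simp [Nat.mod_one]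
  | succ B ih =>
    rw [sum_range_succ, ih, Nat.mod_pow_succ, Nat.testBit_eq_decide_div_mod_eq]
    rcases Nat.mod_two_eq_zero_or_one (n / 2 ^ B) with h | h <;> simp [h]

theorem newD_iff {X : Type} (B a t : ℕ) (Q : X × List Bool → List ℕ)
    (D : X × List Bool × List Bool → Bool) (x : X) (ρ : List Bool) (π : ℕ → Bool) :
    newD B a t D (x, ρ, (newQ B Q (x, ρ)).map π) = true ↔
      ∑ g : Fin 5, rd B π (valM ρ * 5 + g) + a ≤
        cond (D (x, ρ, (Q (x, ρ)).map fun i => π (2 * i))) t 0 + ∑ g : Fin 5,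
          rd B π (nb (2 ^ (ρ.length / 2)) (2 ^ (ρ.length % 2)) (valM ρ) g * 5 + g) := by
  have h1 : ∀ i < 10, blk B ((newQ B Q (x, ρ)).map π) i = rd B π (edge ρ i) := by
    intro i hi
    refine sum_congr rfl fun j hj => ?_
    have hj := mem_range.1 hj
    have h2 : i * B + j < 10 * B := by nlinarith
    have h3 : (i * B + j) / B = i := by
      rw [mul_comm, Nat.mul_add_div (by omega), Nat.div_eq_of_lt hj, add_zero]
    have h4 : (i * B + j) % B = j := by rw [mul_comm, Nat.mul_add_mod, Nat.mod_eq_of_lt hj]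
    congr 1
    simp [newQ, List.getD_eq_getElem?_getD, List.getElem?_append_left, h2, h3, h4]
  have h2 : ((newQ B Q (x, ρ)).map π).drop (10 * B) = (Q (x, ρ)).map fun i => π (2 * i) := by
    rw [newQ, List.map_append, List.drop_left' (by simp)]
    simp
  simp only [newD, decide_eq_true_eq, h2]
  rw [sum_congr rfl fun (g : Fin 5) _ => h1 g (by omega),
    sum_congr rfl fun (g : Fin 5) _ => h1 (5 + g) (by omega)]
  simp [edge]

theorem final_ineq {α β t a M b A F : ℝ} (hM : 0 < M) (ht : 0 < t)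
    (h1 : 2 ≤ (α - β) * t) (h2 : α * t < a + 1) (h3 : a ≤ t) (h4 : b ≤ β * M)
    (h5 : a * M ≤ t * b + (5 * (32 * t) + a) * F) (h6 : A + F = M) (hF : 0 ≤ F) :
    A ≤ (1 - (α - β) / 322) * M := by
  have e1 : (α - β) * t / 2 * M ≤ (a - β * t) * M :=
    mul_le_mul_of_nonneg_right (by linarith) hM.le
  have e2 : t * b ≤ t * (β * M) := mul_le_mul_of_nonneg_left h4 ht.le
  have e3 : a * F ≤ t * F := mul_le_mul_of_nonneg_right h3 hF
  have e4 : t * ((α - β) / 322 * M) ≤ t * F := by nlinarith
  have := le_of_mul_le_mul_left e4 ht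
  linarith

theorem perfect {X : Type} [N487b59b3 X] {α β : ℝ} (hαβ : β < α) (hα : α ≤ 1) (hβ : 0 ≤ β)
    {r q : X → ℝ} {Y N : Set X} (h : InPCP α β r q Y N) :
    InPCP 1 (1 - (α - β) / 322) r (fun x => q x + 10 * Real.logb 2 (1 / (α - β)) + 70) Y N := by
  obtain ⟨R, Q, D, hR, hQ, hD, h⟩ := h
  have hγ : 0 < α - β := by linarith
  have hl0 : 0 ≤ Real.logb 2 (1 / (α - β)) :=
    Real.logb_nonneg one_lt_two (by rw [le_div_iff₀ hγ]; linarith)
  set l := ⌈Real.logb 2 (1 / (α - β)) + 1⌉₊ with hl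
  have hl1 : (l : ℝ) < Real.logb 2 (1 / (α - β)) + 1 + 1 := Nat.ceil_lt_add_one (by linarith)
  have hl2 : 2 ≤ (α - β) * 2 ^ l := by
    have h1 : (2 : ℝ) ^ (Real.logb 2 (1 / (α - β)) + 1) ≤ 2 ^ (l : ℝ) :=
      Real.rpow_le_rpow_of_exponent_le one_le_two (Nat.le_ceil _)
    rw [Real.rpow_add two_pos, Real.rpow_logb two_pos (by norm_num) (by positivity),
      Real.rpow_natCast, Real.rpow_one, div_mul_eq_mul_div, div_le_iff₀ hγ] at h1
    linarith
  set t : ℕ := 2 ^ l with ht
  have ht' : (t : ℝ) = 2 ^ l := by simp [ht]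
  have ht0 : (0 : ℝ) < t := by rw [ht']; positivity
  set a := ⌊α * t⌋₊ with ha
  have ha1 : (a : ℝ) ≤ α * t := Nat.floor_le (by nlinarith)
  have ha2 : α * t < a + 1 := Nat.lt_floor_add_one _
  have hat : a ≤ t := by
    have : (a : ℝ) ≤ t := by nlinarith
    exact_mod_cast this
  have hB : 2 ^ (l + 5) = 32 * t := by rw [pow_add, ht]; ring
  refine ⟨R, newQ (l + 5) Q, newD (l + 5) a t D, hR,
    (PT_newQ _ (MP_73cdf8_lc.PT_of_isPolyTime hQ)).isPolyTime,
    (PT_newD _ _ _ (MP_73cdf8_lc.PT_of_isPolyTime hD)).isPolyTime, fun x => ?_⟩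
  obtain ⟨h1, h2, h3, h4⟩ := h x
  obtain ⟨τ, hτ, hnb⟩ := exists_graph (R x)
  have hM : (0 : ℝ) < 2 ^ R x := by positivity
  have hcard : Fintype.card (Fin (R x) → Bool) = 2 ^ R x := by simp
  refine ⟨h1, fun ρ hρ => ?_, fun hx => ?_, fun hx π => ?_⟩
  · have := h2 ρ hρ
    simp only [newQ, List.length_append, List.length_map, List.length_range]
    push_cast
    linarith
  · obtain ⟨π, hπ⟩ := h3 hx
    rw [accProb, le_div_iff₀ hM] at hπ
    obtain ⟨val, hv1, hv2⟩ := exists_flow hτ
      (fun ρ => D (x, List.ofFn ρ, (Q (x, List.ofFn ρ)).map π)) a t hat (by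
        rw [hcard]
        have : (a : ℝ) * 2 ^ R x ≤ t * ((univ.filter fun ρ : Fin (R x) → Bool =>
          D (x, List.ofFn ρ, (Q (x, List.ofFn ρ)).map π) = true).card : ℝ) := by nlinarith
        exact_mod_cast this)
    let valN : ℕ → Fin 5 → ℕ := Function.extend (fun ω => valM (List.ofFn ω)) val 0
    let π' : ℕ → Bool := fun p => if p % 2 = 0 then π (p / 2) else
      (valN (p / 2 / (l + 5) / 5) ⟨p / 2 / (l + 5) % 5, Nat.mod_lt _ (by norm_num)⟩).testBit
        (p / 2 % (l + 5))
    have e1 : ∀ i, π' (2 * i) = π i := fun i => by simp [π']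
    have e2 : ∀ ω (g : Fin 5), rd (l + 5) π' (valM (List.ofFn ω) * 5 + g) = val ω g := by
      intro ω g
      rw [← Nat.mod_eq_of_lt (a := val ω g) (b := 2 ^ (l + 5)) (by
        have := hv1 ω g
        have : 0 < t := by positivity
        omega), ← sum_testBit]
      refine sum_congr rfl fun j hj => ?_
      have hj := mem_range.1 hj
      set e := valM (List.ofFn ω) * 5 + g with he
      have f1 : (2 * (e * (l + 5) + j) + 1) / 2 = e * (l + 5) + j := by omega
      have f2 : (e * (l + 5) + j) / (l + 5) = e := by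
        rw [mul_comm, Nat.mul_add_div (by omega), Nat.div_eq_of_lt hj, add_zero]
      have f3 : (e * (l + 5) + j) % (l + 5) = j := by
        rw [mul_comm, Nat.mul_add_mod, Nat.mod_eq_of_lt hj]
      have f4 : e / 5 = valM (List.ofFn ω) := by omega
      have f5 : e % 5 = g := by omega
      have f6 : valN (valM (List.ofFn ω)) = val ω := (pos_inj (R x)).extend_apply _ _ ω
      congr 1
      simp only [π', f1, f2, f3, f4, f5, f6]
      rw [if_neg (by omega)]
    refine ⟨π', ?_⟩
    rw [accProb, le_div_iff₀ hM, filter_true_of_mem, card_univ, hcard]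
    · simp
    · intro ω _
      rw [newD_iff]
      simp only [List.length_ofFn, ← hnb, e1, e2]
      exact hv2 ω
  · have h5 := h4 hx (fun i => π (2 * i))
    rw [accProb, div_le_iff₀ hM] at h5 ⊢
    have h6 := flow_sound τ (fun ρ => D (x, List.ofFn ρ, (Q (x, List.ofFn ρ)).map fun i => π (2 * i)))
      a t (32 * t) (fun ω g => rd (l + 5) π (valM (List.ofFn ω) * 5 + g))
      (fun ω g => hB ▸ rd_lt _ _ _)
    have h7 := card_filter_add_card_filter_not (s := univ) (fun ω : Fin (R x) → Bool =>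
      newD (l + 5) a t D (x, List.ofFn ω, (newQ (l + 5) Q (x, List.ofFn ω)).map π) = true)
    simp only [newD_iff, List.length_ofFn, ← hnb] at h7 ⊢
    rw [card_univ, hcard] at h7
    rw [hcard] at h6
    have h6' := (Nat.cast_le (α := ℝ)).2 h6
    have h7' := congrArg (Nat.cast (R := ℝ)) h7
    push_cast at h6' h7'
    have hat' : (a : ℝ) ≤ t := by exact_mod_cast hat
    refine final_ineq hM ht0 (by rw [ht']; exact hl2) ha2 hat' h5 h6' h7' (by positivity)

end Pool.Agent.Lib.MP_45faa6_lc
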