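import Mathlib

/-!
Spectral gap of the Margulis - Gabber - Galil graphs on `ZMod k × ZMod k`.
-/

set_option autoImplicit false

namespace Pool.Agent.Lib.MP_45faa6_lc

open Finset Complex

section weights

/-- Weight of a comparison. -/
noncomputable def mw (x y : ℕ) : ℝ := if x < y then 17 / 20 else if y < x then 20 / 17 else 1

theorem mw_pos (x y : ℕ) : 0 < mw x y := by
  unfold mw; split_ifs <;> norm_num

theorem mw_mul (x y : ℕ) : mw x y * mw y x = 1 := by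
  unfold mw; split_ifs <;> first | omega | norm_num

theorem mw_le (x y : ℕ) : mw x y ≤ 20 / 17 := by
  unfold mw; split_ifs <;> norm_num

theorem mw_self (x : ℕ) : mw x x = 1 := by simp [mw]

theorem mw_int (a b : ℤ) (h : a ≠ 0 ∨ b ≠ 0) :
    mw (a.natAbs + b.natAbs) (a.natAbs + (b - 2 * a).natAbs) +
      mw (a.natAbs + b.natAbs) (a.natAbs + (b + 2 * a).natAbs) +
      mw (a.natAbs + b.natAbs) ((a - 2 * b).natAbs + b.natAbs) +
      mw (a.natAbs + b.natAbs) ((a + 2 * b).natAbs + b.natAbs) ≤ 15 / 4 := by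
  unfold mw
  split_ifs <;> first | omega | norm_num

theorem schur (x y m m' : ℝ) (hm : 0 < m) (h : m * m' = 1) :
    (1 - m) * x ^ 2 + (1 - m') * y ^ 2 ≤ (y - x) ^ 2 := by
  have h1 : m' = 1 / m := by field_simp; linarith
  subst h1
  have : 0 ≤ (m * x - y) ^ 2 / m := by positivity
  have h2 : (m * x - y) ^ 2 / m = m * x ^ 2 - 2 * x * y + 1 / m * y ^ 2 := by field_simp; ring
  nlinarith

end weights

variable {k : ℕ} [NeZero k]

/-- The size of a residue pair. -/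
def rk (ξ : ZMod k × ZMod k) : ℕ := ξ.1.valMinAbs.natAbs + ξ.2.valMinAbs.natAbs

theorem natAbs_cast (n : ℤ) (h : 2 * n.natAbs ≤ k) : ((n : ZMod k).valMinAbs).natAbs = n.natAbs := by
  apply le_antisymm
  · exact ZMod.natAbs_min_of_le_div_two k _ _ (by simp) (ZMod.natAbs_valMinAbs_le _)
  · exact ZMod.natAbs_min_of_le_div_two k _ _ (by simp) (by omega)

theorem one_le_char (x : ZMod k) (h : k ≤ 6 * x.valMinAbs.natAbs) :
    1 ≤ ‖ZMod.stdAddChar (-x) - 1‖ ^ 2 := by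
  have hk : (0 : ℝ) < k := by exact_mod_cast NeZero.pos k
  have h2 : x.valMinAbs.natAbs ≤ k / 2 := ZMod.natAbs_valMinAbs_le x
  set a := x.valMinAbs with ha
  have hx : -x = ((-a : ℤ) : ZMod k) := by simp [ha]
  have e : (2 * Real.pi * I * ((-a : ℤ) : ℂ) / k) = ((-(2 * Real.pi * a / k) : ℝ) : ℂ) * I := by
    push_cast; ring
  rw [hx, ZMod.stdAddChar_coe, e, ← Complex.normSq_eq_norm_sq, Complex.normSq_apply]
  simp only [sub_re, exp_ofReal_mul_I_re, one_re, sub_im, exp_ofReal_mul_I_im, one_im, sub_zero,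
    Real.cos_neg, Real.sin_neg]
  have hc : Real.cos (2 * Real.pi * a / k) ≤ 1 / 2 := by
    rw [← Real.cos_abs, ← Real.cos_pi_div_three]
    have e2 : |2 * Real.pi * a / k| = 2 * Real.pi * (a.natAbs : ℝ) / k := by
      rw [abs_div, abs_mul, abs_of_pos (by positivity : (0 : ℝ) < 2 * Real.pi), abs_of_pos hk]
      simp
    rw [e2]
    have h3 : (k : ℝ) ≤ 6 * a.natAbs := by exact_mod_cast h
    have h4 : 2 * (a.natAbs : ℝ) ≤ k := by exact_mod_cast (by omega : 2 * a.natAbs ≤ k)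
    apply Real.cos_le_cos_of_nonneg_of_le_pi (by positivity)
    · rw [div_le_iff₀ hk]; nlinarith [Real.pi_pos]
    · rw [le_div_iff₀ hk]; nlinarith [Real.pi_pos]
  nlinarith [Real.sin_sq_add_cos_sq (2 * Real.pi * a / k)]

/-- First shear on the dual side. -/
def shA : ZMod k × ZMod k ≃ ZMod k × ZMod k where
  toFun ξ := (ξ.1, ξ.2 - 2 * ξ.1)
  invFun ξ := (ξ.1, ξ.2 + 2 * ξ.1)
  left_inv _ := by simp
  right_inv _ := by simp

/-- Second shear on the dual side. -/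
def shB : ZMod k × ZMod k ≃ ZMod k × ZMod k where
  toFun ξ := (ξ.1 - 2 * ξ.2, ξ.2)
  invFun ξ := (ξ.1 + 2 * ξ.2, ξ.2)
  left_inv _ := by simp
  right_inv _ := by simp

theorem bracket (ξ : ZMod k × ZMod k) (h : ξ ≠ 0) :
    mw (rk ξ) (rk (shA ξ)) + mw (rk ξ) (rk (shA.symm ξ)) + mw (rk ξ) (rk (shB ξ)) +
      mw (rk ξ) (rk (shB.symm ξ)) ≤
      15 / 4 + ‖ZMod.stdAddChar (-ξ.1) - 1‖ ^ 2 + ‖ZMod.stdAddChar (-ξ.2) - 1‖ ^ 2 := by
  have p1 : 0 ≤ ‖ZMod.stdAddChar (-ξ.1) - 1‖ ^ 2 := by positivity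
  have p2 : 0 ≤ ‖ZMod.stdAddChar (-ξ.2) - 1‖ ^ 2 := by positivity
  have q1 := mw_le (rk ξ) (rk (shA ξ))
  have q2 := mw_le (rk ξ) (rk (shA.symm ξ))
  have q3 := mw_le (rk ξ) (rk (shB ξ))
  have q4 := mw_le (rk ξ) (rk (shB.symm ξ))
  by_cases h1 : k ≤ 6 * ξ.1.valMinAbs.natAbs
  · have := one_le_char _ h1; linarith
  by_cases h2 : k ≤ 6 * ξ.2.valMinAbs.natAbs
  · have := one_le_char _ h2; linarith
  obtain ⟨x, y⟩ := ξ
  simp only at h1 h2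
  set a := x.valMinAbs with ha
  set b := y.valMinAbs with hb
  have hx : x = (a : ZMod k) := by simp [ha]
  have hy : y = (b : ZMod k) := by simp [hb]
  have hab : a ≠ 0 ∨ b ≠ 0 := by
    by_contra hc
    push Not at hc
    apply h
    rw [hx, hy, hc.1, hc.2]; simp
  have e1 : rk (shA (x, y)) = a.natAbs + (b - 2 * a).natAbs := by
    rw [← natAbs_cast (k := k) (b - 2 * a) (by omega)]
    simp [rk, shA, ha, hb]
  have e2 : rk (shA.symm (x, y)) = a.natAbs + (b + 2 * a).natAbs := by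
    rw [← natAbs_cast (k := k) (b + 2 * a) (by omega)]
    simp [rk, shA, ha, hb]
  have e3 : rk (shB (x, y)) = (a - 2 * b).natAbs + b.natAbs := by
    rw [← natAbs_cast (k := k) (a - 2 * b) (by omega)]
    simp [rk, shB, ha, hb]
  have e4 : rk (shB.symm (x, y)) = (a + 2 * b).natAbs + b.natAbs := by
    rw [← natAbs_cast (k := k) (a + 2 * b) (by omega)]
    simp [rk, shB, ha, hb]
  have e0 : rk (x, y) = a.natAbs + b.natAbs := rfl
  rw [e0, e1, e2, e3, e4]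
  have := mw_int a b hab
  linarith

/-- Fourier transform on the discrete torus. -/
noncomputable def ft (f : ZMod k × ZMod k → ℂ) (ξ : ZMod k × ZMod k) : ℂ :=
  ∑ z, f z * ZMod.stdAddChar (ξ.1 * z.1 + ξ.2 * z.2)

theorem orth (z : ZMod k × ZMod k) :
    ∑ ξ : ZMod k × ZMod k, ZMod.stdAddChar (ξ.1 * z.1 + ξ.2 * z.2) =
      if z = 0 then ((k : ℂ)) ^ 2 else 0 := by
  simp_rw [AddChar.map_add_eq_mul]
  rw [Fintype.sum_prod_type]
  simp only []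
  rw [← Finset.sum_mul_sum]
  rw [AddChar.sum_mulShift _ (ZMod.isPrimitive_stdAddChar k),
    AddChar.sum_mulShift _ (ZMod.isPrimitive_stdAddChar k)]
  obtain ⟨x, y⟩ := z
  by_cases hx : x = 0 <;> by_cases hy : y = 0 <;> simp [hx, hy, ZMod.card, sq]

theorem parseval (f : ZMod k × ZMod k → ℂ) :
    ∑ ξ, ‖ft f ξ‖ ^ 2 = (k : ℝ) ^ 2 * ∑ z, ‖f z‖ ^ 2 := by
  have key : ∑ ξ, ft f ξ * (starRingEnd ℂ) (ft f ξ) =
      (k : ℂ) ^ 2 * ∑ z, f z * (starRingEnd ℂ) (f z) := by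
    have h1 : ∀ ξ, ft f ξ * (starRingEnd ℂ) (ft f ξ) = ∑ z, ∑ w, f z * (starRingEnd ℂ) (f w) *
        ZMod.stdAddChar (ξ.1 * (z - w).1 + ξ.2 * (z - w).2) := by
      intro ξ
      rw [ft, map_sum, Finset.sum_mul_sum]
      refine Finset.sum_congr rfl fun z _ => Finset.sum_congr rfl fun w _ => ?_
      rw [map_mul, ← AddChar.map_neg_eq_conj]
      have : ξ.1 * (z - w).1 + ξ.2 * (z - w).2 =
          (ξ.1 * z.1 + ξ.2 * z.2) + -(ξ.1 * w.1 + ξ.2 * w.2) := by simp; ring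
      rw [this, AddChar.map_add_eq_mul _ (ξ.1 * z.1 + ξ.2 * z.2)]; ring
    simp_rw [h1]
    rw [Finset.sum_comm, Finset.mul_sum]
    refine Finset.sum_congr rfl fun z _ => ?_
    rw [Finset.sum_comm]
    simp_rw [← Finset.mul_sum, orth, sub_eq_zero]
    simp [mul_comm]
  simp_rw [Complex.mul_conj, Complex.normSq_eq_norm_sq] at key
  exact_mod_cast key

theorem ft_sub (f g : ZMod k × ZMod k → ℂ) (ξ : ZMod k × ZMod k) :
    ft (fun z => f z - g z) ξ = ft f ξ - ft g ξ := by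
  simp [ft, sub_mul, Finset.sum_sub_distrib]

/-- The four generators of the Margulis graph. -/
def marg : Fin 4 → (ZMod k × ZMod k ≃ ZMod k × ZMod k) :=
  ![⟨fun z => (z.1 + 1, z.2), fun z => (z.1 - 1, z.2), fun _ => by simp, fun _ => by simp⟩,
    ⟨fun z => (z.1, z.2 + 1), fun z => (z.1, z.2 - 1), fun _ => by simp, fun _ => by simp⟩,
    shB.symm, shA.symm]

theorem ft_comp (f : ZMod k × ZMod k → ℂ) (τ : ZMod k × ZMod k ≃ ZMod k × ZMod k)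
    (ξ η : ZMod k × ZMod k) (c : ZMod k)
    (h : ∀ z, ξ.1 * z.1 + ξ.2 * z.2 = c + (η.1 * (τ z).1 + η.2 * (τ z).2)) :
    ft (fun z => f (τ z)) ξ = ZMod.stdAddChar c * ft f η := by
  rw [ft, ft, ← Equiv.sum_comp τ (fun z => f z * ZMod.stdAddChar (η.1 * z.1 + η.2 * z.2)),
    Finset.mul_sum]
  refine Finset.sum_congr rfl fun z _ => ?_
  rw [h, AddChar.map_add_eq_mul]; ring

theorem shear_bound (F : ZMod k × ZMod k → ℂ) (σ : ZMod k × ZMod k ≃ ZMod k × ZMod k) :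
    ∑ ξ, (2 - mw (rk ξ) (rk (σ ξ)) - mw (rk ξ) (rk (σ.symm ξ))) * ‖F ξ‖ ^ 2 ≤
      ∑ ξ, ‖F (σ ξ) - F ξ‖ ^ 2 := by
  have h1 : ∑ ξ, (1 - mw (rk ξ) (rk (σ.symm ξ))) * ‖F ξ‖ ^ 2 =
      ∑ ξ, (1 - mw (rk (σ ξ)) (rk ξ)) * ‖F (σ ξ)‖ ^ 2 := by
    rw [← Equiv.sum_comp σ]; simp
  have h2 : ∑ ξ, (2 - mw (rk ξ) (rk (σ ξ)) - mw (rk ξ) (rk (σ.symm ξ))) * ‖F ξ‖ ^ 2 =
      ∑ ξ, (1 - mw (rk ξ) (rk (σ ξ))) * ‖F ξ‖ ^ 2 +
        ∑ ξ, (1 - mw (rk ξ) (rk (σ.symm ξ))) * ‖F ξ‖ ^ 2 := by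
    rw [← Finset.sum_add_distrib]
    exact Finset.sum_congr rfl fun ξ _ => by ring
  rw [h2, h1, ← Finset.sum_add_distrib]
  refine Finset.sum_le_sum fun ξ _ => ?_
  refine (schur _ _ _ _ (mw_pos _ _) (mw_mul _ _)).trans ?_
  have := abs_norm_sub_norm_le (F (σ ξ)) (F ξ)
  exact sq_le_sq' (by linarith [neg_abs_le (‖F (σ ξ)‖ - ‖F ξ‖)]) (by linarith [le_abs_self (‖F (σ ξ)‖ - ‖F ξ‖)])

/-- Poincare inequality for the Margulis graph. -/
theorem poincare_marg (f : ZMod k × ZMod k → ℝ) :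
    (k : ℝ) ^ 2 * ∑ z, f z ^ 2 - (∑ z, f z) ^ 2 ≤
      4 * (k : ℝ) ^ 2 * ∑ g : Fin 4, ∑ z, (f (marg g z) - f z) ^ 2 := by
  set F := ft (fun z => (f z : ℂ)) with hF
  have hE : ∀ τ : ZMod k × ZMod k ≃ ZMod k × ZMod k, (k : ℝ) ^ 2 * ∑ z, (f (τ z) - f z) ^ 2 =
      ∑ ξ, ‖ft (fun z => (f (τ z) : ℂ)) ξ - F ξ‖ ^ 2 := by
    intro τ
    simp_rw [hF, ← ft_sub]
    rw [parseval]
    congr 1
    refine Finset.sum_congr rfl fun z _ => ?_
    rw [← Complex.ofReal_sub, Complex.norm_real, Real.norm_eq_abs, sq_abs]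
  have e0 : ∀ ξ, ft (fun z => (f (marg 0 z) : ℂ)) ξ = ZMod.stdAddChar (-ξ.1) * F ξ := fun ξ =>
    ft_comp (fun z => (f z : ℂ)) _ ξ ξ _ (fun z => by simp [marg]; ring)
  have e1 : ∀ ξ, ft (fun z => (f (marg 1 z) : ℂ)) ξ = ZMod.stdAddChar (-ξ.2) * F ξ := fun ξ =>
    ft_comp (fun z => (f z : ℂ)) _ ξ ξ _ (fun z => by simp [marg]; ring)
  have e2 : ∀ ξ, ft (fun z => (f (marg 2 z) : ℂ)) ξ = F (shA ξ) := fun ξ => by
    rw [ft_comp (fun z => (f z : ℂ)) _ ξ (shA ξ) 0 (fun z => by simp [marg, shA, shB]; ring)]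
    simp [hF]
  have e3 : ∀ ξ, ft (fun z => (f (marg 3 z) : ℂ)) ξ = F (shB ξ) := fun ξ => by
    rw [ft_comp (fun z => (f z : ℂ)) _ ξ (shB ξ) 0 (fun z => by simp [marg, shA, shB]; ring)]
    simp [hF]
  have hP : ∑ ξ, ‖F ξ‖ ^ 2 = (k : ℝ) ^ 2 * ∑ z, f z ^ 2 := by
    rw [hF, parseval]; simp
  have h0 : ‖F 0‖ ^ 2 = (∑ z, f z) ^ 2 := by
    have : F 0 = ((∑ z, f z : ℝ) : ℂ) := by simp [hF, ft]
    rw [this, Complex.norm_real, Real.norm_eq_abs, sq_abs]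
  have hA := shear_bound F shA
  have hB := shear_bound F shB
  rw [Fin.sum_univ_four, mul_assoc, mul_add ((k : ℝ) ^ 2), mul_add ((k : ℝ) ^ 2),
    mul_add ((k : ℝ) ^ 2), hE, hE, hE, hE]
  simp_rw [e0, e1, e2, e3]
  have hm : ∀ (c : ℂ) (ξ), ‖c * F ξ - F ξ‖ ^ 2 = ‖c - 1‖ ^ 2 * ‖F ξ‖ ^ 2 := by
    intro c ξ
    rw [← mul_pow, ← norm_mul]; congr 2; ring
  simp_rw [hm]
  rw [← hP, ← h0]
  have hs : ∑ ξ, ‖F ξ‖ ^ 2 - ‖F 0‖ ^ 2 = ∑ ξ, if ξ = 0 then 0 else ‖F ξ‖ ^ 2 := by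
    rw [← Finset.add_sum_erase _ _ (Finset.mem_univ 0),
      ← Finset.add_sum_erase _ _ (Finset.mem_univ 0)]
    simp only [add_sub_cancel_left, if_true, zero_add]
    exact Finset.sum_congr rfl fun ξ hξ => by rw [if_neg (Finset.ne_of_mem_erase hξ)]
  rw [hs]
  have key : ∑ ξ, (if ξ = 0 then 0 else ‖F ξ‖ ^ 2) ≤ 4 * (∑ ξ, ‖ZMod.stdAddChar (-ξ.1) - 1‖ ^ 2 *
      ‖F ξ‖ ^ 2 + ∑ ξ, ‖ZMod.stdAddChar (-ξ.2) - 1‖ ^ 2 * ‖F ξ‖ ^ 2 +
      ∑ ξ, (2 - mw (rk ξ) (rk (shA ξ)) - mw (rk ξ) (rk (shA.symm ξ))) * ‖F ξ‖ ^ 2 +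
      ∑ ξ, (2 - mw (rk ξ) (rk (shB ξ)) - mw (rk ξ) (rk (shB.symm ξ))) * ‖F ξ‖ ^ 2) := by
    rw [← Finset.sum_add_distrib, ← Finset.sum_add_distrib, ← Finset.sum_add_distrib,
      Finset.mul_sum]
    refine Finset.sum_le_sum fun ξ _ => ?_
    split_ifs with h
    · subst h
      have a1 : shA (0 : ZMod k × ZMod k) = 0 := by simp [shA]
      have a2 : shA.symm (0 : ZMod k × ZMod k) = 0 := by simp [shA]
      have a3 : shB (0 : ZMod k × ZMod k) = 0 := by simp [shB]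
      have a4 : shB.symm (0 : ZMod k × ZMod k) = 0 := by simp [shB]
      rw [a1, a2, a3, a4, mw_self]
      simp
      norm_num
    · have := bracket ξ h
      have h2 : 0 ≤ ‖F ξ‖ ^ 2 := by positivity
      nlinarith
  linarith

end Pool.Agent.Lib.MP_45faa6_lc
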